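import Pool.Agent.Q206.RX.Riem

/-!
# Zero divergence versus positive Riemannian relative expansion coefficients

There are two channels with a common qubit input for which the standard relative expansion
coefficient vanishes (for some `f` in the class `𝓕`) while the Riemannian one is positive (for some
bounded `κ` in the class `𝓚`).
-/

namespace Pool.Agent.Results.MP_7112d2_mp.ZeroVersusPositive

open Pool.Agent.Q206.RX

/-- **Theorem** (positive answer to Q1). -/
theorem result :
    ∃ (N : Matrix (Fin 2) (Fin 2) ℂ →ₗ[ℂ] Matrix (Fin 3) (Fin 3) ℂ)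
      (M : Matrix (Fin 2) (Fin 2) ℂ →ₗ[ℂ] Matrix (Fin 2) (Fin 2) ℂ) (f κ : ℝ → ℝ),
      IsChannel N ∧ IsChannel M ∧ IsF f ∧ IsBoundedK κ ∧
      etaStd f N M = 0 ∧ 0 < etaRiem κ N M :=
  ⟨N, M, f0, k0, N_channel, M_channel, f0_isF, k0_isBoundedK, etaStd_zero, etaRiem_pos⟩

end Pool.Agent.Results.MP_7112d2_mp.ZeroVersusPositive
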